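import Mathlib
import Pool.Agent.Q102.CS.Concrete

/-!
# A countable nilpotent group, not virtually abelian, with infinitely many minimal closed right
ideals in its Stone-Cech compactification
-/

namespace Pool.Agent.Results.MP_be5e04_al.InfinitelyManyMinimal

open Q102.CS

/-- There is a countable nilpotent group `G` of class at most two which is not virtually abelian,
which can be partitioned into infinitely many completely syndetic sets, and for which `βG` has
infinitely many minimal closed right ideals. -/
theorem result : ∃ (G : Type) (_ : Group G), Countable G ∧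
    Group.IsNilpotent G ∧ Group.nilpotencyClass G ≤ 2 ∧
    (∀ H : Subgroup G, H.FiniteIndex → ¬ ∀ x ∈ H, ∀ y ∈ H, x * y = y * x) ∧
    (∃ c : G → ℕ, ∀ i : ℕ, CompletelySyndetic {g : G | c g = i}) ∧
    {R : Set (Ultrafilter G) | IsMinimalClosedRightIdeal R}.Infinite := by
  classical
  refine ⟨G0, inferInstance, inferInstance, HG.isNilpotent, HG.nilpotencyClass_le,
    HG.not_virtually_abelian, ?_, infinite_minimal ladder.A ladder.A_disjoint
      ladder.A_completelySyndetic⟩
  refine ⟨fun g => if h : ∃ i, g ∈ ladder.A i then h.choose else 0, fun i n hn => ?_⟩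
  obtain ⟨F, hF⟩ := ladder.A_completelySyndetic i n hn
  refine ⟨F, fun S hS => ?_⟩
  obtain ⟨f, hf, h⟩ := hF S hS
  refine ⟨f, hf, h.trans (Set.image_mono ?_)⟩
  intro g hg
  have hex : ∃ i, g ∈ ladder.A i := ⟨i, hg⟩
  change (if h : ∃ i, g ∈ ladder.A i then h.choose else 0) = i
  rw [dif_pos hex]
  by_contra hne
  exact Set.disjoint_left.1 (ladder.A_disjoint hne) hex.choose_spec hg

end Pool.Agent.Results.MP_be5e04_al.InfinitelyManyMinimal
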